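import Mathlib
import Pool.Agent.TH202.Dat
import Pool.Agent.W497.Mld.Dvr
import Pool.Agent.W497.Mld.Jac
import Pool.Agent.W497.Mld.Aff
import Pool.Agent.H436R3.Fol.Div

set_option autoImplicit false

namespace Pool.Agent.TH152.C8E

open Pool.Agent.H436R3.Fol Pool.Agent.TH202 MvPolynomial

/-- polynomials in three variables -/
abbrev R3 : Type := MvPolynomial (Fin 3) ℂ

variable {K : Type} [Field K] [Algebra ℂ K]

theorem mem_IC {t : Fin 3 → K} {f : K} :
    f ∈ IC t ↔ IsIntegral (Algebra.adjoin ℂ (Set.range t)) f := Iff.rfl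

theorem aeval_mem_adjoin (t : Fin 3 → K) (q : R3) : aeval t q ∈ Algebra.adjoin ℂ (Set.range t) := by
  rw [Algebra.adjoin_range_eq_range_aeval]
  exact ⟨q, rfl⟩

theorem aeval_mem (t : Fin 3 → K) (q : R3) : aeval t q ∈ IC t :=
  mem_IC.2 (isIntegral_algebraMap (R := Algebra.adjoin ℂ (Set.range t))
    (x := ⟨aeval t q, aeval_mem_adjoin t q⟩))

/-- integral elements that are quotients of polynomials are polynomials -/
theorem of_integral {t : Fin 3 → K} (hinj : Function.Injective (aeval t : R3 →ₐ[ℂ] K)) {x : K}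
    (hx : x ∈ IC t) {p q : R3} (hxpq : x = aeval t p / aeval t q) :
    ∃ F : R3, x = aeval t F := by
  let _ : Algebra R3 K := (aeval t : R3 →ₐ[ℂ] K).toRingHom.toAlgebra
  have hmap : ∀ q : R3, algebraMap R3 K q = aeval t q := fun q => rfl
  have hinj' : Function.Injective (algebraMap R3 K) := hinj
  have h1 : IsIntegral R3 x := by
    have h2 := mem_IC.1 hx
    obtain ⟨P, hP, hPx⟩ := h2
    -- lift the polynomial
    let φ : R3 →+* Algebra.adjoin ℂ (Set.range t) :=
      ((aeval t : R3 →ₐ[ℂ] K).codRestrict _ (aeval_mem_adjoin t)).toRingHom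
    have hsurj : Function.Surjective φ := by
      rintro ⟨y, hy⟩
      rw [Algebra.adjoin_range_eq_range_aeval] at hy
      obtain ⟨q, rfl⟩ := hy
      exact ⟨q, rfl⟩
    obtain ⟨Q, hQ, -, hQm⟩ := Polynomial.lifts_and_natDegree_eq_and_monic
      (Polynomial.map_surjective φ hsurj |>.range_eq ▸ Set.mem_univ P : P ∈ Set.range _) hP
    refine ⟨Q, hQm, ?_⟩
    rw [← hQ, Polynomial.eval₂_map] at hPx
    exact hPx
  let y : FractionRing R3 := algebraMap R3 _ p / algebraMap R3 _ q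
  let ψ : FractionRing R3 →ₐ[R3] K := IsFractionRing.liftAlgHom (g := Algebra.ofId R3 K) hinj'
  have hψy : ψ y = x := by
    rw [hxpq]
    simp only [y, map_div₀, AlgHom.commutes]
    rfl
  have h3 : IsIntegral R3 y := by
    rw [← isIntegral_algHom_iff ψ ψ.injective, hψy]
    exact h1
  obtain ⟨F, hF⟩ := IsIntegrallyClosed.isIntegral_iff.1 h3
  refine ⟨F, ?_⟩
  rw [← hψy, ← hF, AlgHom.commutes]
  rfl

/-! ### The prime polynomial -/

/-- The situation: a triple of rational functions, a valuation of the integral closure, lying over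
a prime polynomial. -/
structure Ctx (d : Dat K) (t : Fin 3 → K) (w : DVal K) (π : R3) : Prop where
  inj : Function.Injective (aeval t : R3 →ₐ[ℂ] K)
  fix : ∀ i, d.σ (t i) = t i
  frac : ∀ g ∈ IntermediateField.adjoin ℂ ({d.a, d.b, d.c} : Set K),
    ∃ p q : R3, g = aeval t p / aeval t q
  loc : IsLocalRing' (IC t) w
  prime : Prime π
  pos : ∀ q, w.Pos (aeval t q) ↔ π ∣ q

namespace Ctx

variable {d : Dat K} {t : Fin 3 → K} {w : DVal K} {π : R3} (H : Ctx d t w π)

include H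

theorem ne {q : R3} (hq : q ≠ 0) : aeval t q ≠ 0 := by
  intro h
  exact hq (H.inj (by rw [h, map_zero]))

theorem reg (q : R3) : w.Reg (aeval t q) := H.loc.1 _ (aeval_mem t q)

theorem ord_nonneg {q : R3} (hq : q ≠ 0) : 0 ≤ w.ord (aeval t q) :=
  w.ord_nonneg (H.ne hq) (H.reg q)

theorem e_pos : 0 < w.ord (aeval t π) :=
  ((H.pos π).2 dvd_rfl).resolve_left (H.ne H.prime.ne_zero)

theorem ord_zero {q : R3} (hq : ¬ π ∣ q) : w.ord (aeval t q) = 0 := by
  have hq0 : q ≠ 0 := by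
    rintro rfl
    exact hq (dvd_zero _)
  have h1 := H.ord_nonneg hq0
  have h2 : ¬ 0 < w.ord (aeval t q) := fun h => hq ((H.pos q).1 (Or.inr h))
  omega

theorem exists_pow {q : R3} (hq : q ≠ 0) : ∃ (m : ℕ) (q' : R3), q = π ^ m * q' ∧ ¬ π ∣ q' ∧
    w.ord (aeval t q) = m * w.ord (aeval t π) := by
  have hfin : FiniteMultiplicity π q := FiniteMultiplicity.of_not_isUnit H.prime.not_isUnit hq
  obtain ⟨q', h1, h2⟩ := hfin.exists_eq_pow_mul_and_not_dvd
  refine ⟨multiplicity π q, q', h1, h2, ?_⟩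
  have hq'0 : q' ≠ 0 := by
    rintro rfl
    exact h2 (dvd_zero _)
  conv_lhs => rw [h1]
  rw [map_mul, map_pow, w.map_mul _ _ (pow_ne_zero _ (H.ne H.prime.ne_zero)) (H.ne hq'0),
    w.ord_pow (H.ne H.prime.ne_zero), H.ord_zero h2, add_zero]

/-- values of polynomials divisible by a power of `π` -/
theorem le_of_dvd {q : R3} (hq : q ≠ 0) {m : ℕ} (h : π ^ m ∣ q) :
    m * w.ord (aeval t π) ≤ w.ord (aeval t q) := by
  obtain ⟨q', rfl⟩ := h
  have h1 : q' ≠ 0 := right_ne_zero_of_mul hq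
  rw [map_mul, map_pow, w.map_mul _ _ (pow_ne_zero _ (H.ne H.prime.ne_zero)) (H.ne h1),
    w.ord_pow (H.ne H.prime.ne_zero)]
  have := H.ord_nonneg h1
  omega

/-- values of elements of the base field are multiples of `e` -/
theorem ord_base {g : K} (hg0 : g ≠ 0)
    (hg : g ∈ IntermediateField.adjoin ℂ ({d.a, d.b, d.c} : Set K)) :
    ∃ z : ℤ, w.ord g = z * w.ord (aeval t π) := by
  obtain ⟨p, q, rfl⟩ := H.frac g hg
  have hp : p ≠ 0 := by
    rintro rfl
    simp at hg0
  have hq : q ≠ 0 := by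
    rintro rfl
    simp at hg0
  obtain ⟨m, -, -, -, hm⟩ := H.exists_pow hp
  obtain ⟨k, -, -, -, hk⟩ := H.exists_pow hq
  refine ⟨m - k, ?_⟩
  rw [w.ord_div (H.ne hp) (H.ne hq), hm, hk]
  ring

end Ctx

/-! ### Decomposition of integral elements -/

theorem mem_base (d : Dat K) :
    d.a ∈ IntermediateField.adjoin ℂ ({d.a, d.b, d.c} : Set K) ∧
    d.b ∈ IntermediateField.adjoin ℂ ({d.a, d.b, d.c} : Set K) ∧
    d.c ∈ IntermediateField.adjoin ℂ ({d.a, d.b, d.c} : Set K) :=
  ⟨IntermediateField.subset_adjoin _ _ (by simp), IntermediateField.subset_adjoin _ _ (by simp),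
    IntermediateField.subset_adjoin _ _ (by simp)⟩

/-- the nonvanishing of polynomial expressions -/
theorem dat_ne (d : Dat K) {q : R3} (hq : q ≠ 0) : aeval ![d.a, d.b, d.c] q ≠ 0 := by
  intro h
  exact hq (d.ind (by rw [h, map_zero]))

theorem X_sub_ne (i : Fin 3) (s : ℂ) : (1 + C s * X i : R3) ≠ 0 := by
  intro h
  have := congrArg (eval (0 : Fin 3 → ℂ)) h
  simp at this

theorem dat_a (d : Dat K) : d.a ≠ 0 := by
  have := dat_ne d (X_ne_zero (0 : Fin 3))
  simpa using this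

theorem dat_b (d : Dat K) : d.b ≠ 0 := by
  have := dat_ne d (X_ne_zero (1 : Fin 3))
  simpa using this

theorem dat_c (d : Dat K) : d.c ≠ 0 := by
  have := dat_ne d (X_ne_zero (2 : Fin 3))
  simpa using this

theorem dat_1a (d : Dat K) : 1 - d.a ≠ 0 := by
  have := dat_ne d (X_sub_ne 0 (-1))
  simpa [sub_eq_add_neg] using this

theorem dat_1a' (d : Dat K) : 1 + d.a ≠ 0 := by
  have := dat_ne d (X_sub_ne 0 1)
  simpa using this

theorem dat_1b (d : Dat K) : 1 - d.b ≠ 0 := by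
  have := dat_ne d (X_sub_ne 1 (-1))
  simpa [sub_eq_add_neg] using this

theorem dat_1b' (d : Dat K) : 1 + d.b ≠ 0 := by
  have := dat_ne d (X_sub_ne 1 1)
  simpa using this

theorem dat_a2 (d : Dat K) : 1 - d.a ^ 2 ≠ 0 := by
  have : 1 - d.a ^ 2 = (1 - d.a) * (1 + d.a) := by ring
  rw [this]
  exact mul_ne_zero (dat_1a d) (dat_1a' d)

theorem dat_b2 (d : Dat K) : 1 - d.b ^ 2 ≠ 0 := by
  have : 1 - d.b ^ 2 = (1 - d.b) * (1 + d.b) := by ring
  rw [this]
  exact mul_ne_zero (dat_1b d) (dat_1b' d)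

theorem dat_r (d : Dat K) : d.r ≠ 0 := by
  intro h
  have h1 := d.r3
  rw [h] at h1
  have h2 : d.a ^ 2 * (1 - d.b ^ 2) ≠ 0 := mul_ne_zero (pow_ne_zero _ (dat_a d)) (dat_b2 d)
  apply h2
  rw [← h1]
  ring

theorem dat_r3 (d : Dat K) : d.r ^ 3 = d.a ^ 2 * (1 - d.b ^ 2) / (d.b ^ 2 * (1 - d.a ^ 2)) := by
  rw [eq_div_iff (mul_ne_zero (pow_ne_zero _ (dat_b d)) (dat_a2 d))]
  exact d.r3

theorem r3_mem (d : Dat K) : d.r ^ 3 ∈ IntermediateField.adjoin ℂ ({d.a, d.b, d.c} : Set K) := by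
  obtain ⟨ha, hb, -⟩ := mem_base d
  rw [dat_r3 d]
  exact div_mem (mul_mem (pow_mem ha 2) (sub_mem (one_mem _) (pow_mem hb 2)))
    (mul_mem (pow_mem hb 2) (sub_mem (one_mem _) (pow_mem ha 2)))

theorem fix_base (d : Dat K) {g : K}
    (hg : g ∈ IntermediateField.adjoin ℂ ({d.a, d.b, d.c} : Set K)) : d.σ g = g := by
  have h : IntermediateField.adjoin ℂ ({d.a, d.b, d.c} : Set K) ≤
      { carrier := {g | d.σ g = g}
        mul_mem' := fun {x y} hx hy => by
          simp only [Set.mem_ofPred_eq] at hx hy ⊢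
          rw [map_mul, hx, hy]
        one_mem' := map_one _
        add_mem' := fun {x y} hx hy => by
          simp only [Set.mem_ofPred_eq] at hx hy ⊢
          rw [map_add, hx, hy]
        zero_mem' := map_zero _
        algebraMap_mem' := fun c => d.σ.commutes c
        inv_mem' := fun x hx => by
          simp only [Set.mem_ofPred_eq] at hx ⊢
          rw [map_inv₀]
          exact congrArg _ hx : IntermediateField ℂ K } := by
    rw [IntermediateField.adjoin_le_iff]
    rintro x (rfl | rfl | rfl)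
    · exact d.σa
    · exact d.σb
    · exact d.σc
  exact h hg

theorem sigma_mem (d : Dat K) {t : Fin 3 → K} (hfix : ∀ i, d.σ (t i) = t i) {f : K}
    (hf : f ∈ IC t) : d.σ f ∈ IC t := by
  have hfixA : ∀ x ∈ Algebra.adjoin ℂ (Set.range t), d.σ x = x := by
    intro x hx
    rw [Algebra.adjoin_range_eq_range_aeval] at hx
    obtain ⟨q, rfl⟩ := hx
    change d.σ (aeval t q) = aeval t q
    rw [← AlgHom.comp_apply, MvPolynomial.comp_aeval]
    congr 2
    funext i
    exact hfix i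
  obtain ⟨P, hP, hPf⟩ := mem_IC.1 hf
  refine mem_IC.2 ⟨P, hP, ?_⟩
  have h1 := congrArg d.σ hPf
  rw [map_zero, Polynomial.eval₂_eq_sum_range, map_sum] at h1
  rw [Polynomial.eval₂_eq_sum_range, ← h1]
  refine Finset.sum_congr rfl fun i _ => ?_
  rw [map_mul, map_pow]
  congr 1
  exact (hfixA _ (P.coeff i).2).symm

end Pool.Agent.TH152.C8E
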