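import Pool.Agent.TH152.C8E.A

set_option autoImplicit false

namespace Pool.Agent.TH152.C8E

open Pool.Agent.H436R3.Fol Pool.Agent.TH202 MvPolynomial

variable {K : Type} [Field K] [Algebra ℂ K]

/-- the decomposition of an integral element into eigenvectors -/
theorem decomp (d : Dat K) {t : Fin 3 → K} (hfix : ∀ i, d.σ (t i) = t i) {f : K}
    (hf : f ∈ IC t) : ∃ g : Fin 3 → K,
      (∀ j, g j ∈ IntermediateField.adjoin ℂ ({d.a, d.b, d.c} : Set K)) ∧
      f = g 0 * d.r ^ 0 + g 1 * d.r ^ 1 + g 2 * d.r ^ 2 ∧ ∀ j : Fin 3, g j * d.r ^ (j : ℕ) ∈ IC t := by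
  obtain ⟨g0, h0, g1, h1, g2, h2, hfg⟩ := d.gen f
  have hf1 := sigma_mem d hfix hf
  have hf2 := sigma_mem d hfix hf1
  set o : K := algebraMap ℂ K d.ω with ho
  have e1 : d.σ f = g0 + o * g1 * d.r + o ^ 2 * g2 * d.r ^ 2 := by
    rw [hfg]
    simp only [map_add, map_mul, map_pow, fix_base d h0, fix_base d h1, fix_base d h2, d.σr]
    ring
  have hoo : d.σ o = o := d.σ.commutes _
  have e2 : d.σ (d.σ f) = g0 + o ^ 2 * g1 * d.r + o ^ 4 * g2 * d.r ^ 2 := by
    rw [e1]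
    simp only [map_add, map_mul, map_pow, fix_base d h0, fix_base d h1, fix_base d h2, d.σr, hoo]
    ring
  have hω3 : d.ω ^ 3 = 1 := d.hω.pow_eq_one
  have hωs : 1 + d.ω + d.ω ^ 2 = 0 := by
    have := d.hω.geom_sum_eq_zero (by norm_num)
    simpa [Finset.sum_range_succ] using this
  have ho3 : o ^ 3 = 1 := by rw [ho, ← map_pow, hω3, map_one]
  have hos : 1 + o + o ^ 2 = 0 := by
    rw [ho, ← map_pow, ← map_one (algebraMap ℂ K), ← map_add, ← map_add, hωs, map_zero]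
  have h3 : (3 : K) ≠ 0 := by
    have : (3 : K) = algebraMap ℂ K 3 := (map_ofNat (algebraMap ℂ K) 3).symm
    rw [this]
    exact (map_ne_zero _).2 (by norm_num)
  have hc3 : (3 : K)⁻¹ ∈ IC t := by
    have : (3 : K)⁻¹ = algebraMap ℂ K 3⁻¹ := by rw [map_inv₀, map_ofNat]
    rw [this]
    exact Subalgebra.algebraMap_mem _ _
  have hom : o ∈ IC t := Subalgebra.algebraMap_mem _ _
  have k0 : g0 = (3 : K)⁻¹ * (f + d.σ f + d.σ (d.σ f)) := by
    rw [e2, e1, hfg]
    field_simp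
    linear_combination (-g1 * d.r) * hos + (-g2 * d.r ^ 2) * (hos + o * ho3)
  have k1 : g1 * d.r = (3 : K)⁻¹ * (f + o ^ 2 * d.σ f + o * d.σ (d.σ f)) := by
    rw [e2, e1, hfg]
    field_simp
    linear_combination (-g0) * hos + (-2 * g1 * d.r) * ho3 +
      (-g2 * d.r ^ 2) * (hos + (o + o ^ 2) * ho3)
  have k2 : g2 * d.r ^ 2 = (3 : K)⁻¹ * (f + o * d.σ f + o ^ 2 * d.σ (d.σ f)) := by
    rw [e2, e1, hfg]
    field_simp
    linear_combination (-g0) * hos + (-g1 * d.r) * (hos + o * ho3) +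
      (-g2 * d.r ^ 2) * (ho3 + (o ^ 3 + 1) * ho3)
  refine ⟨![g0, g1, g2], ?_, ?_, ?_⟩
  · intro j
    fin_cases j
    · exact h0
    · exact h1
    · exact h2
  · rw [hfg]
    simp
  · intro j
    fin_cases j
    · change g0 * d.r ^ 0 ∈ IC t
      rw [pow_zero, mul_one, k0]
      exact mul_mem hc3 (add_mem (add_mem hf hf1) hf2)
    · change g1 * d.r ^ 1 ∈ IC t
      rw [pow_one, k1]
      exact mul_mem hc3 (add_mem (add_mem hf (mul_mem (pow_mem hom 2) hf1)) (mul_mem hom hf2))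
    · change g2 * d.r ^ 2 ∈ IC t
      rw [k2]
      exact mul_mem hc3 (add_mem (add_mem hf (mul_mem hom hf1)) (mul_mem (pow_mem hom 2) hf2))

/-- the criterion for a derivation to preserve the valuation ring -/
theorem preserves_crit {d : Dat K} {t : Fin 3 → K} {w : DVal K} {π : R3} (H : Ctx d t w π)
    (D : Derivation ℂ K K)
    (h : ∀ f : K, f ≠ 0 → ∀ F : R3, f ^ 3 = aeval t F →
      ∀ g ∈ IntermediateField.adjoin ℂ ({d.a, d.b, d.c} : Set K), ∀ j : ℕ, f = g * d.r ^ j →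
      w.Reg (D f)) : Preserves w D := by
  refine preserves_of w H.loc fun f hf => ?_
  obtain ⟨g, hg, hfg, hgI⟩ := decomp d H.fix hf
  have key : ∀ j : Fin 3, w.Reg (D (g j * d.r ^ (j : ℕ))) := by
    intro j
    by_cases h0 : g j * d.r ^ (j : ℕ) = 0
    · rw [h0, map_zero]
      exact w.reg_zero
    have hmem : (g j * d.r ^ (j : ℕ)) ^ 3 ∈
        IntermediateField.adjoin ℂ ({d.a, d.b, d.c} : Set K) := by
      have : (g j * d.r ^ (j : ℕ)) ^ 3 = g j ^ 3 * (d.r ^ 3) ^ (j : ℕ) := by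
        rw [mul_pow, ← pow_mul, ← pow_mul, mul_comm (j : ℕ) 3]
      rw [this]
      exact mul_mem (pow_mem (hg j) 3) (pow_mem (r3_mem d) _)
    obtain ⟨p, q, hpq⟩ := H.frac _ hmem
    obtain ⟨F, hF⟩ := of_integral H.inj (pow_mem (hgI j) 3) hpq
    exact h _ h0 F hF (g j) (hg j) j rfl
  rw [hfg, map_add, map_add]
  exact w.reg_add (w.reg_add (key 0) (key 1)) (key 2)

/-- a derivation that maps polynomials to polynomials -/
theorem der_aeval {t : Fin 3 → K} {D : Derivation ℂ K K} {u : Fin 3 → R3}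
    (hD : ∀ i, D (t i) = aeval t (u i)) (q : R3) :
    D (aeval t q) = aeval t (mkDerivation ℂ u q) := by
  induction q using MvPolynomial.induction_on with
  | C a =>
    rw [← algebraMap_eq, Derivation.map_algebraMap, map_zero, AlgHom.commutes,
      Derivation.map_algebraMap]
  | add p q hp hq => rw [map_add, map_add, hp, hq, map_add, map_add]
  | mul_X p j hp =>
    rw [map_mul, aeval_X, Derivation.leibniz, Derivation.leibniz, hp, hD, mkDerivation_X,
      map_add, smul_eq_mul, smul_eq_mul, smul_eq_mul, smul_eq_mul, map_mul, map_mul, aeval_X]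

section est

variable {d : Dat K} {t : Fin 3 → K} {w : DVal K} {π : R3} (H : Ctx d t w π)
  {D : Derivation ℂ K K} {u : Fin 3 → R3} (hD : ∀ i, D (t i) = aeval t (u i))

include H hD

theorem est {f : K} (hf : f ≠ 0) {F : R3} (hF : f ^ 3 = aeval t F) (hDf : D f ≠ 0) :
    ∃ m : ℕ, 3 * w.ord f = m * w.ord (aeval t π) ∧ mkDerivation ℂ u F ≠ 0 ∧
      w.ord (D f) = w.ord (aeval t (mkDerivation ℂ u F)) - 2 * w.ord f ∧
      π ^ (m - 1) ∣ mkDerivation ℂ u F ∧ (π ∣ mkDerivation ℂ u π → π ^ m ∣ mkDerivation ℂ u F) := by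
  have hF0 : F ≠ 0 := by
    rintro rfl
    rw [map_zero] at hF
    exact hf (pow_eq_zero_iff (by norm_num) |>.1 hF)
  obtain ⟨m, q', hq', -, hm⟩ := H.exists_pow hF0
  have h3 : (3 : K) ≠ 0 := by
    have : (3 : K) = algebraMap ℂ K 3 := (map_ofNat (algebraMap ℂ K) 3).symm
    rw [this]
    exact (map_ne_zero _).2 (by norm_num)
  have h30 : w.ord (3 : K) = 0 := by
    have : (3 : K) = algebraMap ℂ K 3 := (map_ofNat (algebraMap ℂ K) 3).symm
    rw [this]
    exact w.const 3 (by norm_num)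
  have e1 : 3 * f ^ 2 * D f = aeval t (mkDerivation ℂ u F) := by
    rw [← der_aeval hD, ← hF, Derivation.leibniz_pow]
    simp only [nsmul_eq_mul, smul_eq_mul]
    push_cast
    ring
  have hne : 3 * f ^ 2 * D f ≠ 0 := mul_ne_zero (mul_ne_zero h3 (pow_ne_zero _ hf)) hDf
  have hne' : mkDerivation ℂ u F ≠ 0 := by
    intro h
    rw [h, map_zero] at e1
    exact hne e1
  have e2 : mkDerivation ℂ u F = π ^ m * mkDerivation ℂ u q' +
      q' * ((m : R3) * (π ^ (m - 1) * mkDerivation ℂ u π)) := by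
    conv_lhs => rw [hq']
    rw [Derivation.leibniz, Derivation.leibniz_pow]
    simp only [nsmul_eq_mul, smul_eq_mul]
  refine ⟨m, ?_, hne', ?_, ?_, ?_⟩
  · have := w.ord_pow hf 3
    rw [hF, hm] at this
    push_cast at this
    exact this.symm
  · rw [← e1, w.map_mul _ _ (mul_ne_zero h3 (pow_ne_zero _ hf)) hDf,
      w.map_mul _ _ h3 (pow_ne_zero _ hf), h30, w.ord_pow hf]
    push_cast
    ring
  · rw [e2]
    refine dvd_add (Dvd.dvd.mul_right (pow_dvd_pow _ (Nat.sub_le _ _)) _) ?_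
    exact Dvd.dvd.mul_left (Dvd.dvd.mul_left (Dvd.dvd.mul_right dvd_rfl _) _) _
  · intro hπ
    rw [e2]
    refine dvd_add (Dvd.dvd.mul_right dvd_rfl _) ?_
    rcases Nat.eq_zero_or_pos m with h0 | h0
    · rw [h0]
      simp
    · obtain ⟨s, hs⟩ := hπ
      rw [hs]
      refine Dvd.dvd.mul_left (Dvd.dvd.mul_left ?_ _) _
      refine ⟨s, ?_⟩
      rw [← mul_assoc, ← pow_succ, Nat.sub_add_cancel h0]

theorem reg_i (hπ : π ∣ mkDerivation ℂ u π) {f : K} (hf : f ≠ 0) {F : R3}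
    (hF : f ^ 3 = aeval t F) : w.Reg (D f) := by
  by_cases hDf : D f = 0
  · rw [hDf]
    exact w.reg_zero
  obtain ⟨m, h1, h2, h3, -, h5⟩ := est H hD hf hF hDf
  have h6 := H.le_of_dvd h2 (h5 hπ)
  have he := H.e_pos
  have hm : 0 ≤ (m : ℤ) * w.ord (aeval t π) := by positivity
  exact Or.inr (by omega)

theorem reg_ii (hr : w.ord d.r = 0) {f : K} (hf : f ≠ 0) {F : R3} (hF : f ^ 3 = aeval t F)
    {g : K} (hg : g ∈ IntermediateField.adjoin ℂ ({d.a, d.b, d.c} : Set K)) {j : ℕ}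
    (hfg : f = g * d.r ^ j) : w.Reg (D f) := by
  by_cases hDf : D f = 0
  · rw [hDf]
    exact w.reg_zero
  have hg0 : g ≠ 0 := by
    rintro rfl
    rw [zero_mul] at hfg
    exact hf hfg
  obtain ⟨m, h1, h2, h3, h4, -⟩ := est H hD hf hF hDf
  obtain ⟨z, hz⟩ := H.ord_base hg0 hg
  have h6 := H.le_of_dvd h2 h4
  have h7 := H.ord_nonneg h2
  have he := H.e_pos
  have hfz : w.ord f = z * w.ord (aeval t π) := by
    rw [hfg, w.map_mul _ _ hg0 (pow_ne_zero _ (dat_r d)), w.ord_pow (dat_r d), hr, hz]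
    ring
  have hmz : (m : ℤ) = 3 * z := by
    rw [hfz] at h1
    have : (3 * z) * w.ord (aeval t π) = m * w.ord (aeval t π) := by
      rw [← h1]
      ring
    exact (mul_right_cancel₀ he.ne' this).symm
  refine Or.inr ?_
  rw [h3, hfz]
  rcases Nat.eq_zero_or_pos m with h0 | h0
  · have hz0 : z = 0 := by omega
    rw [hz0]
    simpa using h7
  · have hz1 : 1 ≤ z := by omega
    have e : ((m - 1 : ℕ) : ℤ) = 3 * z - 1 := by omega
    rw [e] at h6
    nlinarith

theorem reg_iii {ρ : K} (hρ : ρ ≠ 0) (hρe : 3 * w.ord ρ = w.ord (aeval t π))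
    (hall : ∀ q, π ∣ mkDerivation ℂ u q) {f : K} (hf : f ≠ 0) {F : R3}
    (hF : f ^ 3 = aeval t F) : w.Reg (ρ⁻¹ * D f) := by
  by_cases hDf : D f = 0
  · rw [hDf, mul_zero]
    exact w.reg_zero
  obtain ⟨m, h1, h2, h3, -, h5⟩ := est H hD hf hF hDf
  have h6 := H.le_of_dvd h2 (h5 (hall π))
  have h7 := H.le_of_dvd h2 (m := 1) (by rw [pow_one]; exact hall F)
  have he := H.e_pos
  refine Or.inr ?_
  rw [w.map_mul _ _ (inv_ne_zero hρ) hDf, w.ord_inv hρ]
  push_cast at h7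
  rcases Nat.eq_zero_or_pos m with h0 | h0
  · rw [h0] at h1 h6
    push_cast at h1 h6
    omega
  · have hm : (1 : ℤ) ≤ m := by omega
    have : w.ord (aeval t π) ≤ m * w.ord (aeval t π) := by nlinarith
    omega

theorem reg_iv {ρ : K} (hρ : ρ ≠ 0) (hρe : 3 * w.ord ρ = -2 * w.ord (aeval t π))
    {f : K} (hf : f ≠ 0) {F : R3}
    (hF : f ^ 3 = aeval t F) : w.Reg (ρ⁻¹ * D f) := by
  by_cases hDf : D f = 0
  · rw [hDf, mul_zero]
    exact w.reg_zero
  obtain ⟨m, h1, h2, h3, h4, -⟩ := est H hD hf hF hDf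
  have h6 := H.le_of_dvd h2 h4
  have h7 := H.ord_nonneg h2
  have he := H.e_pos
  refine Or.inr ?_
  rw [w.map_mul _ _ (inv_ne_zero hρ) hDf, w.ord_inv hρ]
  rcases Nat.eq_zero_or_pos m with h0 | h0
  · rw [h0] at h1
    push_cast at h1
    omega
  · have hm : (1 : ℤ) ≤ m := by omega
    have e : ((m - 1 : ℕ) : ℤ) = m - 1 := by omega
    rw [e] at h6
    have : w.ord (aeval t π) ≤ m * w.ord (aeval t π) := by nlinarith
    have e2 : ((m : ℤ) - 1) * w.ord (aeval t π) = m * w.ord (aeval t π) - w.ord (aeval t π) := by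
      ring
    omega

end est

end Pool.Agent.TH152.C8E
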