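import Pool.Agent.TH152.C8E.B

set_option autoImplicit false

namespace Pool.Agent.TH152.C8E

open Pool.Agent.H436R3.Fol Pool.Agent.TH202 MvPolynomial

variable {K : Type} [Field K] [Algebra ℂ K]

theorem frac_of {d : Dat K} {t : Fin 3 → K}
    (ha : d.a ∈ IntermediateField.adjoin ℂ (Set.range t))
    (hb : d.b ∈ IntermediateField.adjoin ℂ (Set.range t))
    (hc : d.c ∈ IntermediateField.adjoin ℂ (Set.range t)) :
    ∀ g ∈ IntermediateField.adjoin ℂ ({d.a, d.b, d.c} : Set K),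
      ∃ p q : R3, g = aeval t p / aeval t q := by
  intro g hg
  have h : IntermediateField.adjoin ℂ ({d.a, d.b, d.c} : Set K) ≤
      IntermediateField.adjoin ℂ (Set.range t) := by
    rw [IntermediateField.adjoin_le_iff]
    rintro x (rfl | rfl | rfl)
    · exact ha
    · exact hb
    · exact hc
  exact (IntermediateField.mem_adjoin_range_iff ℂ t g).1 (h hg)

theorem algebraic_of {d : Dat K} {t : Fin 3 → K}
    (hfrac : ∀ g ∈ IntermediateField.adjoin ℂ ({d.a, d.b, d.c} : Set K),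
      ∃ p q : R3, g = aeval t p / aeval t q) :
    Algebra.IsAlgebraic (Algebra.adjoin ℂ (Set.range t)) K := by
  have h1 : ∀ g ∈ IntermediateField.adjoin ℂ ({d.a, d.b, d.c} : Set K),
      IsAlgebraic (Algebra.adjoin ℂ (Set.range t)) g := by
    intro g hg
    obtain ⟨p, q, rfl⟩ := hfrac g hg
    have hp : IsAlgebraic (Algebra.adjoin ℂ (Set.range t)) (aeval t p) :=
      isAlgebraic_algebraMap (⟨aeval t p, aeval_mem_adjoin t p⟩ : Algebra.adjoin ℂ (Set.range t))
    have hq : IsAlgebraic (Algebra.adjoin ℂ (Set.range t)) (aeval t q) :=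
      isAlgebraic_algebraMap (⟨aeval t q, aeval_mem_adjoin t q⟩ : Algebra.adjoin ℂ (Set.range t))
    rw [div_eq_mul_inv]
    exact hp.mul hq.inv
  have hr : IsAlgebraic (Algebra.adjoin ℂ (Set.range t)) d.r :=
    (h1 _ (r3_mem d)).of_pow (by norm_num)
  refine ⟨fun f => ?_⟩
  obtain ⟨g0, h0, g1, hg1, g2, h2, rfl⟩ := d.gen f
  exact ((h1 _ h0).add ((h1 _ hg1).mul hr)).add ((h1 _ h2).mul (hr.pow 2))

theorem inj_of {d : Dat K} {t : Fin 3 → K}
    (hfrac : ∀ g ∈ IntermediateField.adjoin ℂ ({d.a, d.b, d.c} : Set K),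
      ∃ p q : R3, g = aeval t p / aeval t q) :
    Function.Injective (aeval t : R3 →ₐ[ℂ] K) := by
  have := algebraic_of hfrac
  have h := Algebra.IsAlgebraic.isTranscendenceBasis_of_le_trdeg_of_finite (R := ℂ) t
    (d.ind.cardinalMk_le_trdeg)
  exact h.1

theorem Ctx.of {d : Dat K} {t : Fin 3 → K} {w : DVal K} {π : R3}
    (hbase : ∀ i, t i ∈ IntermediateField.adjoin ℂ ({d.a, d.b, d.c} : Set K))
    (ha : d.a ∈ IntermediateField.adjoin ℂ (Set.range t))
    (hb : d.b ∈ IntermediateField.adjoin ℂ (Set.range t))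
    (hc : d.c ∈ IntermediateField.adjoin ℂ (Set.range t))
    (hw : IsLocalRing' (IC t) w) (hπ : Prime π)
    (hpos : ∀ q, w.Pos (aeval t q) ↔ π ∣ q) : Ctx d t w π where
  inj := inj_of (frac_of ha hb hc)
  fix := fun i => fix_base d (hbase i)
  frac := frac_of ha hb hc
  loc := hw
  prime := hπ
  pos := hpos

/-! ### Linear polynomials -/

/-- the linear polynomial `1 + s X_i` -/
noncomputable def L (i : Fin 3) (s : ℂ) : R3 := 1 + C s * X i

theorem eval_L (x : Fin 3 → ℂ) (i : Fin 3) (s : ℂ) : eval x (L i s) = 1 + s * x i := by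
  simp [L]

theorem aeval_L (t : Fin 3 → K) (i : Fin 3) (s : ℂ) :
    aeval t (L i s) = 1 + algebraMap ℂ K s * t i := by
  simp [L, ← algebraMap_eq]

theorem L_ne (i : Fin 3) (s : ℂ) : L i s ≠ 0 := X_sub_ne i s

theorem prime_L (i : Fin 3) (s : ℂ) (hs : s ≠ 0) : Prime (L i s) := by
  rw [← irreducible_iff_prime]
  refine irreducible_of_totalDegree_eq_one ?_ ?_
  · have h1 : (C s * X i : R3).totalDegree = 1 := by
      rw [totalDegree_mul_of_isDomain (by simpa using hs) (X_ne_zero i), totalDegree_C,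
        totalDegree_X]
    rw [L, totalDegree_add_eq_right_of_totalDegree_lt, h1]
    rw [h1, totalDegree_one]
    norm_num
  · intro x hx
    have h := hx 0
    have h2 : coeff 0 (L i s) = 1 := by
      simp [L, coeff_C_mul, coeff_X, coeff_one]
    rw [h2] at h
    exact isUnit_of_dvd_one h

theorem not_dvd_of_eval {P Q : R3} (x : Fin 3 → ℂ) (h1 : eval x P = 0) (h2 : eval x Q ≠ 0) :
    ¬ P ∣ Q := by
  rintro ⟨R, rfl⟩
  rw [map_mul, h1, zero_mul] at h2
  exact h2 rfl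

theorem Ctx.of_dvd {d : Dat K} {t : Fin 3 → K} {w : DVal K} {π P : R3} (H : Ctx d t w π)
    (hP : Prime P) (h : π ∣ P) : Ctx d t w P where
  inj := H.inj
  fix := H.fix
  frac := H.frac
  loc := H.loc
  prime := hP
  pos := fun q => by
    rw [H.pos q]
    exact (((H.prime.dvd_prime_iff_associated hP).1 h).dvd_iff_dvd_left)

/-- all three values vanish -/
def Z (w : DVal K) (x : K) : Prop := w.ord x = 0 ∧ w.ord (1 - x) = 0 ∧ w.ord (1 + x) = 0

section tri

variable {d : Dat K} {t : Fin 3 → K} {w : DVal K} {π : R3} (H : Ctx d t w π)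

include H

theorem ord_X (i : Fin 3) (h : ¬ π ∣ X i) : w.ord (t i) = 0 := by
  have := H.ord_zero h
  rwa [aeval_X] at this

theorem ord_L1 (i : Fin 3) (h : ¬ π ∣ L i 1) : w.ord (1 + t i) = 0 := by
  have := H.ord_zero h
  rwa [aeval_L, map_one, one_mul] at this

theorem ord_L2 (i : Fin 3) (h : ¬ π ∣ L i (-1)) : w.ord (1 - t i) = 0 := by
  have := H.ord_zero h
  rwa [aeval_L, map_neg, map_one, neg_one_mul, ← sub_eq_add_neg] at this

theorem trich : (∀ j, Z w (t j)) ∨ ∃ i, (∀ j, j ≠ i → Z w (t j)) ∧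
    ((Ctx d t w (X i) ∧ w.ord (1 - t i) = 0 ∧ w.ord (1 + t i) = 0) ∨
      (Ctx d t w (L i (-1)) ∧ w.ord (t i) = 0 ∧ w.ord (1 + t i) = 0) ∨
      (Ctx d t w (L i 1) ∧ w.ord (t i) = 0 ∧ w.ord (1 - t i) = 0)) := by
  by_cases h1 : ∃ i, π ∣ X i
  · obtain ⟨i, hi⟩ := h1
    have H' := H.of_dvd (X_prime (i := i)) hi
    have hL : ∀ j s, ¬ (X i : R3) ∣ L j s := fun j s =>
      not_dvd_of_eval 0 (by simp) (by rw [eval_L]; simp)
    right
    refine ⟨i, fun j hj => ⟨ord_X H' j ?_, ord_L2 H' j (hL j _), ord_L1 H' j (hL j _)⟩,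
      Or.inl ⟨H', ord_L2 H' i (hL i _), ord_L1 H' i (hL i _)⟩⟩
    exact not_dvd_of_eval (Function.update 1 i 0) (by simp) (by simp [Function.update_of_ne hj])
  push Not at h1
  by_cases h2 : ∃ i, π ∣ L i (-1)
  · obtain ⟨i, hi⟩ := h2
    have H' := H.of_dvd (prime_L i (-1) (by norm_num)) hi
    set x : Fin 3 → ℂ := Function.update (fun _ => 2) i 1 with hx
    have hxi : x i = 1 := by simp [hx]
    have hxj : ∀ j, j ≠ i → x j = 2 := fun j hj => by simp [hx, Function.update_of_ne hj]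
    have h0 : eval x (L i (-1)) = 0 := by
      rw [eval_L, hxi]
      norm_num
    right
    refine ⟨i, fun j hj => ⟨ord_X H' j ?_, ord_L2 H' j ?_, ord_L1 H' j ?_⟩,
      Or.inr (Or.inl ⟨H', ord_X H' i ?_, ord_L1 H' i ?_⟩)⟩
    · exact not_dvd_of_eval x h0 (by rw [eval_X, hxj j hj]; norm_num)
    · exact not_dvd_of_eval x h0 (by rw [eval_L, hxj j hj]; norm_num)
    · exact not_dvd_of_eval x h0 (by rw [eval_L, hxj j hj]; norm_num)
    · exact not_dvd_of_eval x h0 (by rw [eval_X, hxi]; norm_num)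
    · exact not_dvd_of_eval x h0 (by rw [eval_L, hxi]; norm_num)
  push Not at h2
  by_cases h3 : ∃ i, π ∣ L i 1
  · obtain ⟨i, hi⟩ := h3
    have H' := H.of_dvd (prime_L i 1 (by norm_num)) hi
    set x : Fin 3 → ℂ := Function.update (fun _ => 2) i (-1) with hx
    have hxi : x i = -1 := by simp [hx]
    have hxj : ∀ j, j ≠ i → x j = 2 := fun j hj => by simp [hx, Function.update_of_ne hj]
    have h0 : eval x (L i 1) = 0 := by
      rw [eval_L, hxi]
      norm_num
    right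
    refine ⟨i, fun j hj => ⟨ord_X H' j ?_, ord_L2 H' j ?_, ord_L1 H' j ?_⟩,
      Or.inr (Or.inr ⟨H', ord_X H' i ?_, ord_L2 H' i ?_⟩)⟩
    · exact not_dvd_of_eval x h0 (by rw [eval_X, hxj j hj]; norm_num)
    · exact not_dvd_of_eval x h0 (by rw [eval_L, hxj j hj]; norm_num)
    · exact not_dvd_of_eval x h0 (by rw [eval_L, hxj j hj]; norm_num)
    · exact not_dvd_of_eval x h0 (by rw [eval_X, hxi]; norm_num)
    · exact not_dvd_of_eval x h0 (by rw [eval_L, hxi]; norm_num)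
  push Not at h3
  exact Or.inl fun j => ⟨ord_X H j (h1 j), ord_L2 H j (h2 j), ord_L1 H j (h3 j)⟩

end tri

theorem inv_vals (w : DVal K) {a ta : K} (h : ta = a ∨ ta = a⁻¹) (h0 : a ≠ 0) (h1 : 1 - a ≠ 0)
    (h2 : 1 + a ≠ 0) :
    (ta = a ∧ w.ord a = w.ord ta ∧ w.ord (1 - a) = w.ord (1 - ta) ∧
      w.ord (1 + a) = w.ord (1 + ta)) ∨
    (ta = a⁻¹ ∧ w.ord a = - w.ord ta ∧ w.ord (1 - a) = w.ord (1 - ta) - w.ord ta ∧
      w.ord (1 + a) = w.ord (1 + ta) - w.ord ta) := by
  rcases h with rfl | rfl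
  · exact Or.inl ⟨rfl, rfl, rfl, rfl⟩
  · refine Or.inr ⟨rfl, ?_, ?_, ?_⟩
    · rw [w.ord_inv h0]
      ring
    · have e : 1 - a⁻¹ = -((1 - a) / a) := by
        field_simp
        ring
      rw [e, w.ord_neg (div_ne_zero h1 h0), w.ord_div h1 h0, w.ord_inv h0]
      ring
    · have e : 1 + a⁻¹ = (1 + a) / a := by
        field_simp
        ring
      rw [e, w.ord_div h2 h0, w.ord_inv h0]
      ring

end Pool.Agent.TH152.C8E
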