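import Pool.Agent.TH152.C8E.C

set_option autoImplicit false

namespace Pool.Agent.TH152.C8E

open Pool.Agent.H436R3.Fol Pool.Agent.TH202 MvPolynomial

variable {K : Type} [Field K] [Algebra ℂ K]

theorem dvd_mkDer {π : R3} {u : Fin 3 → R3} (h : ∀ i, π ∣ u i) (q : R3) :
    π ∣ mkDerivation ℂ u q := by
  induction q using MvPolynomial.induction_on with
  | C a =>
    rw [← algebraMap_eq, Derivation.map_algebraMap]
    exact dvd_zero _
  | add p q hp hq =>
    rw [map_add]
    exact dvd_add hp hq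
  | mul_X p j hp =>
    rw [Derivation.leibniz, mkDerivation_X, smul_eq_mul, smul_eq_mul]
    exact dvd_add (Dvd.dvd.mul_left (h j) _) (Dvd.dvd.mul_left hp _)

theorem mkDer_X_single {i j : Fin 3} (h : i ≠ j) (v : R3) :
    mkDerivation ℂ (Pi.single j v) (X i : R3) = 0 := by
  rw [mkDerivation_X, Pi.single_eq_of_ne h]

theorem mkDer_L_single {i j : Fin 3} (h : i ≠ j) (v : R3) (s : ℂ) :
    mkDerivation ℂ (Pi.single j v) (L i s) = 0 := by
  rw [L, map_add, Derivation.leibniz, mkDer_X_single h, Derivation.map_one_eq_zero,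
    ← algebraMap_eq, Derivation.map_algebraMap]
  simp

section pres

variable {d : Dat K} {t : Fin 3 → K} {w : DVal K} {π : R3} (H : Ctx d t w π)
  {D : Derivation ℂ K K} {u : Fin 3 → R3} (hD : ∀ i, D (t i) = aeval t (u i))

include H hD

theorem pres_i (hπ : mkDerivation ℂ u π = 0) : Preserves w D :=
  preserves_crit H D fun _ hf _ hF _ _ _ _ => reg_i H hD (by rw [hπ]; exact dvd_zero _) hf hF

theorem pres_ii (hr : w.ord d.r = 0) : Preserves w D :=
  preserves_crit H D fun _ hf _ hF _ hg _ hfg => reg_ii H hD hr hf hF hg hfg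

theorem pres_iii {ρ : K} (hρ : ρ ≠ 0) (hρe : 3 * w.ord ρ = w.ord (aeval t π))
    (hall : ∀ i, π ∣ u i) : Preserves w (ρ⁻¹ • D) :=
  preserves_crit H (ρ⁻¹ • D) fun _ hf _ hF _ _ _ _ => by
    rw [Derivation.smul_apply, smul_eq_mul]
    exact reg_iii H hD hρ hρe (dvd_mkDer hall) hf hF

theorem pres_iv {ρ : K} (hρ : ρ ≠ 0) (hρe : 3 * w.ord ρ = -2 * w.ord (aeval t π)) :
    Preserves w (ρ⁻¹ • D) :=
  preserves_crit H (ρ⁻¹ • D) fun _ hf _ hF _ _ _ _ => by
    rw [Derivation.smul_apply, smul_eq_mul]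
    exact reg_iv H hD hρ hρe hf hF

end pres

/-! ### The lower bound -/

theorem canOrd_of (d : Dat K) (T : Foliation K 3) (hT : IsPd d T) (w : DVal K) {x y z : K}
    (hx : x ≠ 0) (hy : y ≠ 0) (hz : z ≠ 0)
    (h1 : Preserves w (x • T.D 0)) (h2 : Preserves w (y • T.D 1)) (h3 : Preserves w (z • T.D 2))
    {a' b' : K} (ha' : a' = d.a ∨ a' = 1 - d.a ∨ a' = 1 + d.a)
    (hb' : b' = d.b ∨ b' = 1 - d.b ∨ b' = 1 + d.b)
    (hn : w.ord x + w.ord y + w.ord z ≤ w.ord a' + w.ord b' + w.ord d.c - 1 ∨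
      (w.ord a' = 0 ∧ w.ord b' = 0 ∧ w.ord d.c = 0 ∧ w.ord x + w.ord y + w.ord z ≤ 0)) :
    IsCanOrd T w (w.ord x + w.ord y + w.ord z) := by
  have hT' : ∀ i, T.D i d.a = (if i = 0 then 1 else 0) ∧ T.D i d.b = (if i = 1 then 1 else 0) ∧
      T.D i d.c = (if i = 2 then 1 else 0) := fun i => ⟨hT i 0, hT i 1, hT i 2⟩
  have ha0 : a' ≠ 0 := by
    rcases ha' with rfl | rfl | rfl
    · exact dat_a d
    · exact dat_1a d
    · exact dat_1a' d
  have hb0 : b' ≠ 0 := by
    rcases hb' with rfl | rfl | rfl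
    · exact dat_b d
    · exact dat_1b d
    · exact dat_1b' d
  have hsa : ∃ s : K, (s = 1 ∨ s = -1) ∧ ∀ i, T.D i a' = if i = 0 then s else 0 := by
    rcases ha' with rfl | rfl | rfl
    · exact ⟨1, Or.inl rfl, fun i => (hT' i).1⟩
    · refine ⟨-1, Or.inr rfl, fun i => ?_⟩
      rw [map_sub, Derivation.map_one_eq_zero, (hT' i).1]
      split_ifs <;> ring
    · refine ⟨1, Or.inl rfl, fun i => ?_⟩
      rw [map_add, Derivation.map_one_eq_zero, (hT' i).1]
      split_ifs <;> ring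
  have hsb : ∃ s : K, (s = 1 ∨ s = -1) ∧ ∀ i, T.D i b' = if i = 1 then s else 0 := by
    rcases hb' with rfl | rfl | rfl
    · exact ⟨1, Or.inl rfl, fun i => (hT' i).2.1⟩
    · refine ⟨-1, Or.inr rfl, fun i => ?_⟩
      rw [map_sub, Derivation.map_one_eq_zero, (hT' i).2.1]
      split_ifs <;> ring
    · refine ⟨1, Or.inl rfl, fun i => ?_⟩
      rw [map_add, Derivation.map_one_eq_zero, (hT' i).2.1]
      split_ifs <;> ring
  obtain ⟨s1, hs1, hDa⟩ := hsa
  obtain ⟨s2, hs2, hDb⟩ := hsb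
  have hs0 : s1 * s2 ≠ 0 ∧ w.ord (s1 * s2) = 0 := by
    rcases hs1 with rfl | rfl <;> rcases hs2 with rfl | rfl
    · simp [w.ord_one]
    · simp [w.ord_one, w.ord_neg]
    · simp [w.ord_one, w.ord_neg]
    · simp [w.ord_one]
  have hJ : (Matrix.of fun j k => T.D j ((![a', b', d.c] : Fin 3 → K) k)).det = s1 * s2 := by
    rw [Matrix.det_fin_three]
    simp [hDa, hDb, (hT' _).2.2]
  refine isCanOrd_of (Matrix.diagonal ![x, y, z]) ?_ ?_ ?_ ?_
  · rw [Matrix.det_diagonal, Fin.prod_univ_three]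
    exact mul_ne_zero (mul_ne_zero hx hy) hz
  · intro i
    have : ∑ j, Matrix.diagonal ![x, y, z] i j • T.D j = (![x, y, z] : Fin 3 → K) i • T.D i := by
      rw [Finset.sum_eq_single i]
      · rw [Matrix.diagonal_apply_eq]
      · intro j _ hj
        rw [Matrix.diagonal_apply_ne _ hj.symm, zero_smul]
      · intro h
        exact absurd (Finset.mem_univ _) h
    rw [this]
    fin_cases i
    · exact h1
    · exact h2
    · exact h3
  · rw [Matrix.det_diagonal, Fin.prod_univ_three]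
    change w.ord (x * y * z) = _
    rw [w.map_mul _ _ (mul_ne_zero hx hy) hz, w.map_mul _ _ hx hy]
  · intro A hA0 hA
    have h0 : ∀ k, (![a', b', d.c] : Fin 3 → K) k ≠ 0 := by
      intro k
      fin_cases k
      · exact ha0
      · exact hb0
      · exact dat_c d
    rcases hn with hn | ⟨e1, e2, e3, hn⟩
    · have := Pool.Agent.W497.Mld.gji w T.D A hA0 hA ![a', b', d.c] h0 (by rw [hJ]; exact hs0.1)
      rw [hJ, hs0.2, Fin.sum_univ_three] at this
      change w.ord a' + w.ord b' + w.ord d.c - 1 ≤ _ at this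
      omega
    · have := Pool.Agent.W497.Mld.gji_zero w T.D A hA0 hA ![a', b', d.c] h0
        (by rw [hJ]; exact hs0.1) (by
          intro k
          fin_cases k
          · exact e1
          · exact e2
          · exact e3)
      rw [hJ, hs0.2] at this
      omega

end Pool.Agent.TH152.C8E
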