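import Pool.Agent.TH152.C8E.D

set_option autoImplicit false

namespace Pool.Agent.TH152.C8E

open Pool.Agent.H436R3.Fol Pool.Agent.TH202 MvPolynomial

variable {K : Type} [Field K] [Algebra ℂ K]

theorem der_zero {D : Derivation ℂ K K} {x y : K} (h : y = x ∨ y = x⁻¹) (hx : D x = 0) :
    D y = 0 := by
  rcases h with rfl | rfl
  · exact hx
  · rw [Derivation.leibniz_inv, hx, smul_zero]

theorem der_sq {D : Derivation ℂ K K} {x y : K} (h0 : x ≠ 0) (h : y = x ∨ y = x⁻¹)
    (hx : D x = 1) : (1 - x ^ 2) * D y = 1 - y ^ 2 := by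
  rcases h with rfl | rfl
  · rw [hx, mul_one]
  · rw [Derivation.leibniz_inv, hx, smul_eq_mul]
    field_simp
    ring

theorem mem_of_inv {S : IntermediateField ℂ K} {x y : K} (h : y = x ∨ y = x⁻¹) (hx : x ∈ S) :
    y ∈ S := by
  rcases h with rfl | rfl
  · exact hx
  · exact inv_mem hx

theorem mem_of_inv' {S : IntermediateField ℂ K} {x y : K} (h : y = x ∨ y = x⁻¹) (hy : y ∈ S) :
    x ∈ S := by
  rcases h with rfl | rfl
  · exact hy
  · exact inv_mem_iff.1 hy

theorem ctx_one (d : Dat K) {ta tb tc : K} (ha : ta = d.a ∨ ta = d.a⁻¹)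
    (hb : tb = d.b ∨ tb = d.b⁻¹) (hc : tc = d.c ∨ tc = d.c⁻¹) {w : DVal K}
    (hw : IsLocalRing' (IC ![ta, tb, tc]) w) {π : R3} (hπ : Prime π)
    (hpos : ∀ q, w.Pos (aeval ![ta, tb, tc] q) ↔ π ∣ q) : Ctx d ![ta, tb, tc] w π := by
  obtain ⟨mA, mB, mC⟩ := mem_base d
  refine Ctx.of ?_ ?_ ?_ ?_ hw hπ hpos
  · intro i
    fin_cases i
    · exact mem_of_inv ha mA
    · exact mem_of_inv hb mB
    · exact mem_of_inv hc mC
  · exact mem_of_inv' ha (IntermediateField.subset_adjoin _ _ ⟨0, rfl⟩)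
  · exact mem_of_inv' hb (IntermediateField.subset_adjoin _ _ ⟨1, rfl⟩)
  · exact mem_of_inv' hc (IntermediateField.subset_adjoin _ _ ⟨2, rfl⟩)

theorem ord_r (d : Dat K) (w : DVal K) : 3 * w.ord d.r + (2 * w.ord d.b + w.ord (1 - d.a ^ 2)) =
    2 * w.ord d.a + w.ord (1 - d.b ^ 2) := by
  have h := congrArg w.ord d.r3
  rw [w.map_mul _ _ (pow_ne_zero _ (dat_r d)) (mul_ne_zero (pow_ne_zero _ (dat_b d)) (dat_a2 d)),
    w.map_mul _ _ (pow_ne_zero _ (dat_b d)) (dat_a2 d),
    w.map_mul _ _ (pow_ne_zero _ (dat_a d)) (dat_b2 d), w.ord_pow (dat_r d),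
    w.ord_pow (dat_a d), w.ord_pow (dat_b d)] at h
  push_cast at h
  exact h

theorem ord_a2 (d : Dat K) (w : DVal K) : w.ord (1 - d.a ^ 2) =
    w.ord (1 - d.a) + w.ord (1 + d.a) := by
  rw [← w.map_mul _ _ (dat_1a d) (dat_1a' d)]
  congr 1
  ring

theorem ord_b2 (d : Dat K) (w : DVal K) : w.ord (1 - d.b ^ 2) =
    w.ord (1 - d.b) + w.ord (1 + d.b) := by
  rw [← w.map_mul _ _ (dat_1b d) (dat_1b' d)]
  congr 1
  ring

theorem main_one [Algebra.EssFiniteType ℂ K] (d : Dat K)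
    (T : Foliation K 3) (hT : IsPd d T) (ta tb tc : K) (ha : ta = d.a ∨ ta = d.a⁻¹)
    (hb : tb = d.b ∨ tb = d.b⁻¹) (hc : tc = d.c ∨ tc = d.c⁻¹) (w : DVal K)
    (hw : IsLocalRing' (IC ![ta, tb, tc]) w)
    (hover : ∃ π : MvPolynomial (Fin 3) ℂ, Prime π ∧
      ∀ q, w.Pos (aeval ![ta, tb, tc] q) ↔ π ∣ q) :
    min (w.ord d.a) (min (w.ord d.b) (w.ord d.c)) ≤ 0 ∧
    ∃ n : ℤ, IsCanOrd T w n ∧
      (n : ℝ) = 2 / 3 * (w.ord ((1 - d.a ^ 2) / d.a ^ 2) : ℝ)
        + 2 / 3 * (w.ord ((1 - d.b ^ 2) / d.b ^ 2) : ℝ) + 2 * (w.ord d.a : ℝ) + 2 * (w.ord d.b : ℝ)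
        - 2 * ng (w.ord d.c) := by
  obtain ⟨π, hπ, hpos⟩ := hover
  have H := ctx_one d ha hb hc hw hπ hpos
  have t0 : (![ta, tb, tc] : Fin 3 → K) 0 = ta := rfl
  have t1 : (![ta, tb, tc] : Fin 3 → K) 1 = tb := rfl
  have t2 : (![ta, tb, tc] : Fin 3 → K) 2 = tc := rfl
  set t : Fin 3 → K := ![ta, tb, tc] with ht
  have Daa : T.D 0 d.a = 1 := hT 0 0
  have Dab : T.D 0 d.b = 0 := hT 0 1
  have Dac : T.D 0 d.c = 0 := hT 0 2
  have Dba : T.D 1 d.a = 0 := hT 1 0
  have Dbb : T.D 1 d.b = 1 := hT 1 1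
  have Dbc : T.D 1 d.c = 0 := hT 1 2
  have Dca : T.D 2 d.a = 0 := hT 2 0
  have Dcb : T.D 2 d.b = 0 := hT 2 1
  have Dcc : T.D 2 d.c = 1 := hT 2 2
  have EA : ∀ i, ((1 - d.a ^ 2) • T.D 0) (t i) =
      aeval t ((Pi.single 0 (1 - X 0 ^ 2) : Fin 3 → R3) i) := by
    intro i
    rw [Derivation.smul_apply, smul_eq_mul]
    fin_cases i
    · change (1 - d.a ^ 2) * T.D 0 ta = aeval t ((Pi.single 0 (1 - X 0 ^ 2) : Fin 3 → R3) 0)
      rw [Pi.single_eq_same, der_sq (dat_a d) ha Daa, map_sub, map_one, map_pow, aeval_X, t0]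
    · change (1 - d.a ^ 2) * T.D 0 tb = aeval t ((Pi.single 0 (1 - X 0 ^ 2) : Fin 3 → R3) 1)
      rw [Pi.single_eq_of_ne (by decide), der_zero hb Dab, map_zero, mul_zero]
    · change (1 - d.a ^ 2) * T.D 0 tc = aeval t ((Pi.single 0 (1 - X 0 ^ 2) : Fin 3 → R3) 2)
      rw [Pi.single_eq_of_ne (by decide), der_zero hc Dac, map_zero, mul_zero]
  have EB : ∀ i, ((1 - d.b ^ 2) • T.D 1) (t i) =
      aeval t ((Pi.single 1 (1 - X 1 ^ 2) : Fin 3 → R3) i) := by
    intro i
    rw [Derivation.smul_apply, smul_eq_mul]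
    fin_cases i
    · change (1 - d.b ^ 2) * T.D 1 ta = aeval t ((Pi.single 1 (1 - X 1 ^ 2) : Fin 3 → R3) 0)
      rw [Pi.single_eq_of_ne (by decide), der_zero ha Dba, map_zero, mul_zero]
    · change (1 - d.b ^ 2) * T.D 1 tb = aeval t ((Pi.single 1 (1 - X 1 ^ 2) : Fin 3 → R3) 1)
      rw [Pi.single_eq_same, der_sq (dat_b d) hb Dbb, map_sub, map_one, map_pow, aeval_X, t1]
    · change (1 - d.b ^ 2) * T.D 1 tc = aeval t ((Pi.single 1 (1 - X 1 ^ 2) : Fin 3 → R3) 2)
      rw [Pi.single_eq_of_ne (by decide), der_zero hc Dbc, map_zero, mul_zero]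
  have hcc : ∃ (cc : K) (κ : ℂ), cc ≠ 0 ∧ cc * T.D 2 tc = algebraMap ℂ K κ ∧
      ((w.ord cc = 0 ∧ w.ord d.c = w.ord tc) ∨ (w.ord cc = 2 * w.ord d.c ∧
        w.ord d.c = - w.ord tc)) := by
    rcases hc with rfl | rfl
    · exact ⟨1, 1, one_ne_zero, by rw [Dcc, map_one, one_mul], Or.inl ⟨w.ord_one, rfl⟩⟩
    · refine ⟨d.c ^ 2, -1, pow_ne_zero _ (dat_c d), ?_, Or.inr ⟨?_, ?_⟩⟩
      · rw [Derivation.leibniz_inv, Dcc, smul_eq_mul, map_neg, map_one]
        have := dat_c d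
        field_simp
      · rw [w.ord_pow (dat_c d)]
        norm_num
      · rw [w.ord_inv (dat_c d)]
        ring
  obtain ⟨cc, κ, hcc0, hccD, hccv⟩ := hcc
  have EC : ∀ i, (cc • T.D 2) (t i) = aeval t ((Pi.single 2 (C κ) : Fin 3 → R3) i) := by
    intro i
    rw [Derivation.smul_apply, smul_eq_mul]
    fin_cases i
    · change cc * T.D 2 ta = aeval t ((Pi.single 2 (C κ) : Fin 3 → R3) 0)
      rw [Pi.single_eq_of_ne (by decide), der_zero ha Dca, map_zero, mul_zero]
    · change cc * T.D 2 tb = aeval t ((Pi.single 2 (C κ) : Fin 3 → R3) 1)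
      rw [Pi.single_eq_of_ne (by decide), der_zero hb Dcb, map_zero, mul_zero]
    · change cc * T.D 2 tc = aeval t ((Pi.single 2 (C κ) : Fin 3 → R3) 2)
      rw [Pi.single_eq_same, hccD, ← algebraMap_eq, AlgHom.commutes]
  -- values
  have hva := inv_vals w ha (dat_a d) (dat_1a d) (dat_1a' d)
  have hvb := inv_vals w hb (dat_b d) (dat_1b d) (dat_1b' d)
  have hr := ord_r d w
  rw [ord_a2, ord_b2] at hr
  have hA := ord_a2 d w
  have hB := ord_b2 d w
  have ntc : 0 ≤ w.ord tc := by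
    have := H.ord_nonneg (X_ne_zero (2 : Fin 3))
    rwa [aeval_X, t2] at this
  have hng : (w.ord cc : ℝ) = - 2 * ng (w.ord d.c) := by
    unfold ng
    rcases hccv with ⟨e1, e2⟩ | ⟨e1, e2⟩
    · rw [e1, e2, max_eq_left]
      · simp
      · have : (0 : ℝ) ≤ w.ord tc := by exact_mod_cast ntc
        linarith
    · rw [e1, e2, max_eq_right]
      · push_cast
        ring
      · have : (0 : ℝ) ≤ w.ord tc := by exact_mod_cast ntc
        push_cast
        linarith
  have hwx : w.ord ((1 - d.a ^ 2) / d.a ^ 2) = w.ord (1 - d.a ^ 2) - 2 * w.ord d.a := by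
    rw [w.ord_div (dat_a2 d) (pow_ne_zero _ (dat_a d)), w.ord_pow (dat_a d)]
    norm_num
  have hwy : w.ord ((1 - d.b ^ 2) / d.b ^ 2) = w.ord (1 - d.b ^ 2) - 2 * w.ord d.b := by
    rw [w.ord_div (dat_b2 d) (pow_ne_zero _ (dat_b d)), w.ord_pow (dat_b d)]
    norm_num
  have fin : ∀ x y : K, x ≠ 0 → y ≠ 0 → Preserves w (x • T.D 0) → Preserves w (y • T.D 1) →
      Preserves w (cc • T.D 2) → ∀ a' b' : K, (a' = d.a ∨ a' = 1 - d.a ∨ a' = 1 + d.a) →
      (b' = d.b ∨ b' = 1 - d.b ∨ b' = 1 + d.b) →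
      (w.ord x + w.ord y + w.ord cc ≤ w.ord a' + w.ord b' + w.ord d.c - 1 ∨
        (w.ord a' = 0 ∧ w.ord b' = 0 ∧ w.ord d.c = 0 ∧ w.ord x + w.ord y + w.ord cc ≤ 0)) →
      3 * (w.ord x + w.ord y + w.ord cc) = 2 * (w.ord (1 - d.a ^ 2) - 2 * w.ord d.a) +
        2 * (w.ord (1 - d.b ^ 2) - 2 * w.ord d.b) + 6 * w.ord d.a + 6 * w.ord d.b +
        3 * w.ord cc →
      ∃ n : ℤ, IsCanOrd T w n ∧
      (n : ℝ) = 2 / 3 * (w.ord ((1 - d.a ^ 2) / d.a ^ 2) : ℝ)
        + 2 / 3 * (w.ord ((1 - d.b ^ 2) / d.b ^ 2) : ℝ) + 2 * (w.ord d.a : ℝ)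
        + 2 * (w.ord d.b : ℝ) - 2 * ng (w.ord d.c) := by
    intro x y hx hy h1 h2 h3 a' b' ha' hb' hn hnum
    refine ⟨_, canOrd_of d T hT w hx hy hcc0 h1 h2 h3 ha' hb' hn, ?_⟩
    have h4 : (3 : ℝ) * (((w.ord x + w.ord y + w.ord cc : ℤ)) : ℝ) =
        2 * ((w.ord (1 - d.a ^ 2) : ℝ) - 2 * w.ord d.a) +
        2 * ((w.ord (1 - d.b ^ 2) : ℝ) - 2 * w.ord d.b) + 6 * w.ord d.a + 6 * w.ord d.b +
        3 * w.ord cc := by
      exact_mod_cast hnum
    rw [hng] at h4
    rw [hwx, hwy]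
    rw [Int.cast_sub, Int.cast_sub, Int.cast_mul, Int.cast_mul, Int.cast_ofNat]
    linarith
  have hr0 := dat_r d
  have hx0 := dat_a2 d
  have hy0 := dat_b2 d
  rcases trich H with hz | ⟨i, hz, hcase⟩
  · obtain ⟨z1, z2, z3⟩ := hz 0
    obtain ⟨z4, z5, z6⟩ := hz 1
    obtain ⟨z7, z8, z9⟩ := hz 2
    rw [t0] at z1 z2 z3
    rw [t1] at z4 z5 z6
    rw [t2] at z7 z8 z9
    have hr' : w.ord d.r = 0 := by omega
    refine ⟨by omega, fin _ _ hx0 hy0 (pres_ii H EA hr') (pres_ii H EB hr') (pres_ii H EC hr')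
      d.a d.b (Or.inl rfl) (Or.inl rfl) ?_ ?_⟩
    · right
      omega
    · omega
  have hi : i = 0 ∨ i = 1 ∨ i = 2 := by
    fin_cases i <;> simp
  rcases hi with rfl | rfl | rfl
  · -- `a` active
    obtain ⟨z4, z5, z6⟩ := hz 1 (by decide)
    obtain ⟨z7, z8, z9⟩ := hz 2 (by decide)
    rw [t1] at z4 z5 z6
    rw [t2] at z7 z8 z9
    rw [t0] at hcase
    rcases hcase with ⟨H', z2, z3⟩ | ⟨H', z1, z3⟩ | ⟨H', z1, z2⟩
    · have he := H'.e_pos
      rw [aeval_X, t0] at he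
      rcases hva with ⟨hta, v1, v2, v3⟩ | ⟨hta, v1, v2, v3⟩
      · have P3 := pres_i H' EC (mkDer_X_single (by decide) _)
        have P2 := pres_i H' EB (mkDer_X_single (by decide) _)
        have P1 := pres_iv H' EA (ρ := d.r⁻¹) (inv_ne_zero hr0) (by
          rw [w.ord_inv hr0, aeval_X, t0]
          omega)
        rw [smul_smul, inv_inv] at P1
        refine ⟨by omega, fin _ _ (mul_ne_zero hr0 hx0) hy0 P1 P2 P3 d.a d.b (Or.inl rfl)
          (Or.inl rfl) ?_ ?_⟩
        · rw [w.map_mul _ _ hr0 hx0]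
          left
          omega
        · rw [w.map_mul _ _ hr0 hx0]
          omega
      · have hr' : w.ord d.r = 0 := by omega
        refine ⟨by omega, fin _ _ hx0 hy0 (pres_ii H' EA hr') (pres_ii H' EB hr')
          (pres_ii H' EC hr') d.a d.b (Or.inl rfl) (Or.inl rfl) ?_ ?_⟩
        · left
          omega
        · omega
    · have he := H'.e_pos
      have hae : aeval t (L 0 (-1)) = 1 - ta := by
        rw [aeval_L, map_neg, map_one, t0]
        ring
      rw [hae] at he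
      have P3 := pres_i H' EC (mkDer_L_single (by decide) _ _)
      have P2 := pres_i H' EB (mkDer_L_single (by decide) _ _)
      have P1 := pres_iii H' EA (ρ := d.r⁻¹) (inv_ne_zero hr0) (by
        rw [w.ord_inv hr0, hae]
        omega) (by
          intro i
          by_cases h : i = 0
          · subst h
            rw [Pi.single_eq_same]
            refine ⟨1 + X 0, ?_⟩
            simp only [L, map_neg, map_one]
            ring
          · rw [Pi.single_eq_of_ne h]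
            exact dvd_zero _)
      rw [smul_smul, inv_inv] at P1
      refine ⟨by omega, fin _ _ (mul_ne_zero hr0 hx0) hy0 P1 P2 P3 (1 - d.a) d.b
        (Or.inr (Or.inl rfl)) (Or.inl rfl) ?_ ?_⟩
      · rw [w.map_mul _ _ hr0 hx0]
        left
        omega
      · rw [w.map_mul _ _ hr0 hx0]
        omega
    · have he := H'.e_pos
      have hae : aeval t (L 0 1) = 1 + ta := by
        rw [aeval_L, map_one, t0]
        ring
      rw [hae] at he
      have P3 := pres_i H' EC (mkDer_L_single (by decide) _ _)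
      have P2 := pres_i H' EB (mkDer_L_single (by decide) _ _)
      have P1 := pres_iii H' EA (ρ := d.r⁻¹) (inv_ne_zero hr0) (by
        rw [w.ord_inv hr0, hae]
        omega) (by
          intro i
          by_cases h : i = 0
          · subst h
            rw [Pi.single_eq_same]
            refine ⟨1 - X 0, ?_⟩
            simp only [L, map_one]
            ring
          · rw [Pi.single_eq_of_ne h]
            exact dvd_zero _)
      rw [smul_smul, inv_inv] at P1
      refine ⟨by omega, fin _ _ (mul_ne_zero hr0 hx0) hy0 P1 P2 P3 (1 + d.a) d.b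
        (Or.inr (Or.inr rfl)) (Or.inl rfl) ?_ ?_⟩
      · rw [w.map_mul _ _ hr0 hx0]
        left
        omega
      · rw [w.map_mul _ _ hr0 hx0]
        omega
  · -- `b` active
    obtain ⟨z1, z2, z3⟩ := hz 0 (by decide)
    obtain ⟨z7, z8, z9⟩ := hz 2 (by decide)
    rw [t0] at z1 z2 z3
    rw [t2] at z7 z8 z9
    rw [t1] at hcase
    have hri : d.r⁻¹ ≠ 0 := inv_ne_zero hr0
    rcases hcase with ⟨H', z5, z6⟩ | ⟨H', z4, z6⟩ | ⟨H', z4, z5⟩
    · have he := H'.e_pos
      rw [aeval_X, t1] at he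
      rcases hvb with ⟨htb, v1, v2, v3⟩ | ⟨htb, v1, v2, v3⟩
      · have P3 := pres_i H' EC (mkDer_X_single (by decide) _)
        have P1 := pres_i H' EA (mkDer_X_single (by decide) _)
        have P2 := pres_iv H' EB (ρ := d.r) hr0 (by
          rw [aeval_X, t1]
          omega)
        rw [smul_smul] at P2
        refine ⟨by omega, fin _ _ hx0 (mul_ne_zero hri hy0) P1 P2 P3 d.a d.b (Or.inl rfl)
          (Or.inl rfl) ?_ ?_⟩
        · rw [w.map_mul _ _ hri hy0, w.ord_inv hr0]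
          left
          omega
        · rw [w.map_mul _ _ hri hy0, w.ord_inv hr0]
          omega
      · have hr' : w.ord d.r = 0 := by omega
        refine ⟨by omega, fin _ _ hx0 hy0 (pres_ii H' EA hr') (pres_ii H' EB hr')
          (pres_ii H' EC hr') d.a d.b (Or.inl rfl) (Or.inl rfl) ?_ ?_⟩
        · left
          omega
        · omega
    · have he := H'.e_pos
      have hae : aeval t (L 1 (-1)) = 1 - tb := by
        rw [aeval_L, map_neg, map_one, t1]
        ring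
      rw [hae] at he
      have P3 := pres_i H' EC (mkDer_L_single (by decide) _ _)
      have P1 := pres_i H' EA (mkDer_L_single (by decide) _ _)
      have P2 := pres_iii H' EB (ρ := d.r) hr0 (by
        rw [hae]
        omega) (by
          intro i
          by_cases h : i = 1
          · subst h
            rw [Pi.single_eq_same]
            refine ⟨1 + X 1, ?_⟩
            simp only [L, map_neg, map_one]
            ring
          · rw [Pi.single_eq_of_ne h]
            exact dvd_zero _)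
      rw [smul_smul] at P2
      refine ⟨by omega, fin _ _ hx0 (mul_ne_zero hri hy0) P1 P2 P3 d.a (1 - d.b)
        (Or.inl rfl) (Or.inr (Or.inl rfl)) ?_ ?_⟩
      · rw [w.map_mul _ _ hri hy0, w.ord_inv hr0]
        left
        omega
      · rw [w.map_mul _ _ hri hy0, w.ord_inv hr0]
        omega
    · have he := H'.e_pos
      have hae : aeval t (L 1 1) = 1 + tb := by
        rw [aeval_L, map_one, t1]
        ring
      rw [hae] at he
      have P3 := pres_i H' EC (mkDer_L_single (by decide) _ _)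
      have P1 := pres_i H' EA (mkDer_L_single (by decide) _ _)
      have P2 := pres_iii H' EB (ρ := d.r) hr0 (by
        rw [hae]
        omega) (by
          intro i
          by_cases h : i = 1
          · subst h
            rw [Pi.single_eq_same]
            refine ⟨1 - X 1, ?_⟩
            simp only [L, map_one]
            ring
          · rw [Pi.single_eq_of_ne h]
            exact dvd_zero _)
      rw [smul_smul] at P2
      refine ⟨by omega, fin _ _ hx0 (mul_ne_zero hri hy0) P1 P2 P3 d.a (1 + d.b)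
        (Or.inl rfl) (Or.inr (Or.inr rfl)) ?_ ?_⟩
      · rw [w.map_mul _ _ hri hy0, w.ord_inv hr0]
        left
        omega
      · rw [w.map_mul _ _ hri hy0, w.ord_inv hr0]
        omega
  · -- `c` active or other
    obtain ⟨z1, z2, z3⟩ := hz 0 (by decide)
    obtain ⟨z4, z5, z6⟩ := hz 1 (by decide)
    rw [t0] at z1 z2 z3
    rw [t1] at z4 z5 z6
    rw [t2] at hcase
    have hr' : w.ord d.r = 0 := by omega
    refine ⟨by omega, fin _ _ hx0 hy0 (pres_ii H EA hr') (pres_ii H EB hr') (pres_ii H EC hr')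
      d.a d.b (Or.inl rfl) (Or.inl rfl) ?_ ?_⟩
    · rcases hcase with ⟨H', z7, z8⟩ | ⟨H', z7, z8⟩ | ⟨H', z7, z8⟩
      · have he := H'.e_pos
        rw [aeval_X, t2] at he
        left
        omega
      · right
        omega
      · right
        omega
    · omega

end Pool.Agent.TH152.C8E
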